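import Mathlib

/-!
# Two generic linear forms in the square-free algebra

Let `K` be an infinite field and `𝔖 = K[x_1, …, x_n] / (x_1 ^ 2, …, x_n ^ 2)`. The conjectured
formula `⟨(1 + t) ^ n ∏ (1 - t ^ d_i)⟩` for the Hilbert series of the quotient of `𝔖` by generic
forms of degrees `d_i` is false for two linear forms: if `n = 2 s + 1 ≥ 7`, or `n = 2 s + 2 ≥ 14`,
then the formula gives `0` in degree `s`, but the quotient of `𝔖` by two generic linear forms is not
zero in degree `s`. The same holds after adding any number of further generic forms of degrees `> s`.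
So the formula fails for every infinite field `K`, every number `r ≥ 2` of forms, and all odd
`n ≥ 7` and all `n ≥ 14`.

Proof. Let `l_1 = ∑ a_i x_i` and `l_2 = ∑ a_i t_i x_i` with distinct `t_i`, and let `B` be a set of
`2 s + 1` of the variables. The functional which maps `∏_{i ∈ T} x_i` (`T ⊆ B`, `|T| = s`) to
`∏_{i ∈ T} a_i⁻¹ ∏_{i ∈ T, l ∈ B \ T} (t_i - t_l)⁻¹` and all other monomials to zero vanishes on the
ideal `(x_1 ^ 2, …, x_n ^ 2, l_1, l_2)`, by Lagrange interpolation in `s + 2` points. (For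
`n = 7` and characteristic zero this is Macaulay-dual to the cubic threefold of secants of the
rational normal curve through seven points of `P^4`.)
-/

set_option autoImplicit false

namespace Pool.Agent.Results.MP_3acc10_al.TwoLinearForms

open MvPolynomial

/-- The polynomial `(1 + t) ^ n ∏ (1 - t ^ d_i)`. -/
noncomputable def series (n : ℕ) {r : ℕ} (d : Fin r → ℕ) : Polynomial ℤ :=
  (1 + Polynomial.X) ^ n * ∏ i : Fin r, (1 - Polynomial.X ^ d i)

/-- The coefficients of the truncation `⟨(1 + t) ^ n ∏ (1 - t ^ d_i)⟩` before the first coefficient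
which is not positive. -/
noncomputable def expected (n : ℕ) {r : ℕ} (d : Fin r → ℕ) (j : ℕ) : ℤ :=
  open Classical in if ∀ i ≤ j, 0 < (series n d).coeff i then (series n d).coeff j else 0

/-- The dimension of the component of degree `j` of the quotient of `K[x_1, …, x_n]` by the squares
of the variables and the forms `f i`. -/
noncomputable def hilb {K : Type} [Field K] {n r : ℕ} (f : Fin r → MvPolynomial (Fin n) K)
    (j : ℕ) : ℕ :=
  Module.finrank K (↥(homogeneousSubmodule (Fin n) K j) ⧸
    Submodule.comap (homogeneousSubmodule (Fin n) K j).subtype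
      (Submodule.restrictScalars K
        (Ideal.span (Set.range (fun i : Fin n => (X i : MvPolynomial (Fin n) K) ^ 2) ∪
          Set.range f))))

/-- The forms with the coefficients `c` in the basis of square-free monomials. -/
noncomputable def form {K : Type} [Field K] {n r : ℕ} {d : Fin r → ℕ}
    (c : (Σ i : Fin r, {T : Finset (Fin n) // T.card = d i}) → K) (i : Fin r) :
    MvPolynomial (Fin n) K :=
  ∑ T : {T : Finset (Fin n) // T.card = d i}, C (c ⟨i, T⟩) * ∏ k ∈ T.1, X k

/-- The formula for generic forms of degrees `d i` in the square-free algebra on `n` variables: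
on a nonempty Zariski open set of coefficient vectors the Hilbert series is the truncation. -/
def SeriesFormula (K : Type) [Field K] (n : ℕ) {r : ℕ} (d : Fin r → ℕ) : Prop :=
  ∃ P : MvPolynomial (Σ i : Fin r, {T : Finset (Fin n) // T.card = d i}) K, P ≠ 0 ∧
    ∀ c : (Σ i : Fin r, {T : Finset (Fin n) // T.card = d i}) → K, eval c P ≠ 0 →
      ∀ j : ℕ, (hilb (form c) j : ℤ) = expected n d j

section Core

variable {K : Type} [Field K] {n : ℕ}

/-- The values of the functional on square-free monomials. -/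
noncomputable def cf (B : Finset (Fin n)) (a t : Fin n → K) (T : Finset (Fin n)) : K :=
  (∏ i ∈ T, (a i)⁻¹) * ∏ i ∈ T, ∏ l ∈ B \ T, (t i - t l)⁻¹

theorem lag (L : Finset (Fin n)) (t : Fin n → K) (ht : Set.InjOn t L) (P : Polynomial K)
    (hP : P.natDegree + 1 < L.card) :
    ∑ k ∈ L, P.eval (t k) * ∏ l ∈ L.erase k, (t k - t l)⁻¹ = 0 := by
  have h1 : P.degree < L.card := by
    refine lt_of_le_of_lt Polynomial.degree_le_natDegree ?_
    exact_mod_cast (by omega : P.natDegree < L.card)
  have h2 := Lagrange.coeff_eq_sum ht h1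
  rw [Polynomial.coeff_eq_zero_of_natDegree_lt (by omega)] at h2
  rw [h2]
  refine Finset.sum_congr rfl fun k _ => ?_
  rw [div_eq_mul_inv, Finset.prod_inv_distrib]

theorem cf_insert (B U : Finset (Fin n)) (a t : Fin n → K) (ht : Set.InjOn t B) (hU : U ⊆ B)
    (k : Fin n) (hk : k ∈ B \ U) :
    cf B a t (insert k U) = ((∏ i ∈ U, (a i)⁻¹) * ∏ i ∈ U, ∏ l ∈ B \ U, (t i - t l)⁻¹) *
      ((a k)⁻¹ * ((∏ i ∈ U, (t i - t k)) * ∏ l ∈ (B \ U).erase k, (t k - t l)⁻¹)) := by
  obtain ⟨hkB, hkU⟩ := Finset.mem_sdiff.1 hk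
  have e1 : B \ insert k U = (B \ U).erase k := by
    ext x; simp only [Finset.mem_sdiff, Finset.mem_insert, Finset.mem_erase]; tauto
  unfold cf
  rw [Finset.prod_insert hkU, Finset.prod_insert hkU, e1]
  have e2 : ∀ i ∈ U, ∏ l ∈ (B \ U).erase k, (t i - t l)⁻¹ =
      (∏ l ∈ B \ U, (t i - t l)⁻¹) * (t i - t k) := by
    intro i hi
    have hne : t i - t k ≠ 0 := by
      intro h
      have : i = k := ht (hU hi) hkB (sub_eq_zero.1 h)
      exact hkU (this ▸ hi)
    rw [← Finset.mul_prod_erase _ _ hk]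
    field_simp
  rw [Finset.prod_congr rfl e2, Finset.prod_mul_distrib]
  ring

theorem cf_sum (B U : Finset (Fin n)) (a t : Fin n → K) (ha : ∀ i ∈ B, a i ≠ 0)
    (ht : Set.InjOn t B) (hU : U ⊆ B) (hB : B.card = 2 * U.card + 3) (e : ℕ) (he : e ≤ 1) :
    ∑ k ∈ B \ U, a k * t k ^ e * cf B a t (insert k U) = 0 := by
  have h0 : ∀ k ∈ B \ U, a k * t k ^ e * cf B a t (insert k U) =
      ((∏ i ∈ U, (a i)⁻¹) * ∏ i ∈ U, ∏ l ∈ B \ U, (t i - t l)⁻¹) *
        ((Polynomial.X ^ e * ∏ i ∈ U, (Polynomial.C (t i) - Polynomial.X)).eval (t k) *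
          ∏ l ∈ (B \ U).erase k, (t k - t l)⁻¹) := by
    intro k hk
    rw [cf_insert B U a t ht hU k hk]
    have hak := ha k (Finset.mem_sdiff.1 hk).1
    simp only [Polynomial.eval_mul, Polynomial.eval_pow, Polynomial.eval_X, Polynomial.eval_prod,
      Polynomial.eval_sub, Polynomial.eval_C]
    field_simp
  rw [Finset.sum_congr rfl h0, ← Finset.mul_sum, lag, mul_zero]
  · exact ht.mono (by intro x hx; exact (Finset.mem_sdiff.1 hx).1)
  · have h1 : (Polynomial.X ^ e * ∏ i ∈ U, (Polynomial.C (t i) - Polynomial.X)).natDegree ≤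
        e + U.card := by
      refine Polynomial.natDegree_mul_le.trans (add_le_add (Polynomial.natDegree_X_pow_le e) ?_)
      refine (Polynomial.natDegree_prod_le _ _).trans ?_
      refine (Finset.sum_le_card_nsmul U _ 1 fun i _ => ?_).trans (by simp)
      refine (Polynomial.natDegree_sub_le _ _).trans ?_
      simp
    have h2 : (B \ U).card = U.card + 3 := by
      rw [Finset.card_sdiff_of_subset hU]; omega
    omega

/-- The exponent of the square-free monomial `∏_{i ∈ T} x_i`. -/
noncomputable def ind (T : Finset (Fin n)) : Fin n →₀ ℕ :=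
  Finsupp.indicator T fun _ _ => 1

theorem ind_apply (T : Finset (Fin n)) (i : Fin n) : ind T i = if i ∈ T then 1 else 0 := by
  unfold ind
  rw [Finsupp.indicator_apply]
  split_ifs <;> rfl

theorem ind_inj {T U : Finset (Fin n)} (h : ind T = ind U) : T = U := by
  ext i
  have := DFunLike.congr_fun h i
  rw [ind_apply, ind_apply] at this
  by_cases h1 : i ∈ T <;> by_cases h2 : i ∈ U <;> simp_all

theorem ind_erase (T : Finset (Fin n)) (k : Fin n) (hk : k ∈ T) :
    ind T - Finsupp.single k 1 = ind (T.erase k) := by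
  ext i
  rw [Finsupp.tsub_apply, ind_apply, ind_apply]
  by_cases hik : k = i
  · subst hik; simp [hk]
  · rw [Finsupp.single_eq_of_ne (Ne.symm hik)]
    simp [Ne.symm hik]

/-- The functional. -/
noncomputable def phi (s : ℕ) (B : Finset (Fin n)) (a t : Fin n → K) :
    MvPolynomial (Fin n) K →ₗ[K] K :=
  ∑ T ∈ B.powersetCard s, cf B a t T • MvPolynomial.lcoeff K (ind T)

theorem phi_apply (s : ℕ) (B : Finset (Fin n)) (a t : Fin n → K) (p : MvPolynomial (Fin n) K) :
    phi s B a t p = ∑ T ∈ B.powersetCard s, cf B a t T * coeff (ind T) p := by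
  simp [phi, LinearMap.sum_apply]

theorem phi_sq (s : ℕ) (B : Finset (Fin n)) (a t : Fin n → K) (q : MvPolynomial (Fin n) K)
    (i : Fin n) : phi s B a t (q * X i ^ 2) = 0 := by
  rw [phi_apply]
  refine Finset.sum_eq_zero fun T _ => ?_
  rw [show q * X i ^ 2 = q * monomial (Finsupp.single i 2) 1 by rw [X_pow_eq_monomial],
    coeff_mul_monomial', if_neg, mul_zero]
  intro h
  have := h i
  rw [Finsupp.single_eq_same, ind_apply] at this
  split_ifs at this <;> omega

theorem phi_lin (s : ℕ) (B : Finset (Fin n)) (a t : Fin n → K) (ha : ∀ i ∈ B, a i ≠ 0)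
    (ht : Set.InjOn t B) (hB : B.card = 2 * s + 1) (hs : 1 ≤ s) (e : ℕ) (he : e ≤ 1)
    (w : Fin n → K) (hw : ∀ k ∈ B, w k = a k * t k ^ e) (q : MvPolynomial (Fin n) K) :
    phi s B a t (q * ∑ k, C (w k) * X k) = 0 := by
  induction q using MvPolynomial.induction_on' with
  | add p q hp hq => rw [add_mul, map_add, hp, hq, add_zero]
  | monomial m b =>
    rw [phi_apply]
    have h1 : ∀ T ∈ B.powersetCard s, cf B a t T * coeff (ind T)
        (monomial m b * ∑ k, C (w k) * X k) =
        ∑ k ∈ T, if m = ind (T.erase k) then b * (w k * cf B a t T) else 0 := by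
      intro T hT
      rw [Finset.mul_sum, coeff_sum, Finset.mul_sum]
      rw [← Finset.sum_subset (Finset.subset_univ T)]
      · refine Finset.sum_congr rfl fun k hk => ?_
        rw [← mul_assoc, coeff_mul_X', if_pos]
        · rw [mul_comm (monomial m b) (C (w k)), coeff_C_mul, coeff_monomial, ind_erase T k hk]
          split_ifs
          · ring
          · ring
        · rw [Finsupp.mem_support_iff, ind_apply, if_pos hk]; exact one_ne_zero
      · intro k _ hk
        rw [← mul_assoc, coeff_mul_X', if_neg, mul_zero]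
        rw [Finsupp.mem_support_iff, ind_apply, if_neg hk]; simp
    rw [Finset.sum_congr rfl h1]
    by_cases hex : ∃ U : Finset (Fin n), U ⊆ B ∧ U.card + 1 = s ∧ m = ind U
    · obtain ⟨U, hUB, hUs, rfl⟩ := hex
      have h2 : ∑ T ∈ B.powersetCard s, ∑ k ∈ T,
          (if ind U = ind (T.erase k) then b * (w k * cf B a t T) else 0) =
          ∑ k ∈ B \ U, b * (w k * cf B a t (insert k U)) := by
        rw [Finset.sum_sigma', ← Finset.sum_filter]
        refine (Finset.sum_bij' (fun k _ => (⟨insert k U, k⟩ : (_ : Finset (Fin n)) × Fin n))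
          (fun x _ => x.2) ?_ ?_ ?_ ?_ ?_).symm
        · intro k hk
          obtain ⟨hkB, hkU⟩ := Finset.mem_sdiff.1 hk
          rw [Finset.mem_filter, Finset.mem_sigma, Finset.mem_powersetCard]
          refine ⟨⟨⟨Finset.insert_subset hkB hUB, ?_⟩, Finset.mem_insert_self _ _⟩, ?_⟩
          · rw [Finset.card_insert_of_notMem hkU, hUs]
          · simp only
            rw [Finset.erase_insert hkU]
        · rintro ⟨T, k⟩ hx
          rw [Finset.mem_filter, Finset.mem_sigma, Finset.mem_powersetCard] at hx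
          obtain ⟨⟨⟨hTB, hTs⟩, hkT⟩, hU⟩ := hx
          simp only at hTB hTs hkT hU ⊢
          have := ind_inj hU
          rw [Finset.mem_sdiff]
          refine ⟨hTB hkT, ?_⟩
          rw [this]
          exact Finset.notMem_erase k T
        · intro k _; rfl
        · rintro ⟨T, k⟩ hx
          rw [Finset.mem_filter, Finset.mem_sigma, Finset.mem_powersetCard] at hx
          obtain ⟨⟨⟨hTB, hTs⟩, hkT⟩, hU⟩ := hx
          simp only at hTB hTs hkT hU ⊢
          have := ind_inj hU
          rw [this, Finset.insert_erase hkT]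
        · intro k _; rfl
      rw [h2, ← Finset.mul_sum]
      rw [Finset.sum_congr rfl fun k hk => by
        rw [hw k (Finset.mem_sdiff.1 hk).1]]
      rw [cf_sum B U a t ha ht hUB (by omega) e he, mul_zero]
    · refine Finset.sum_eq_zero fun T hT => Finset.sum_eq_zero fun k hk => ?_
      rw [if_neg]
      intro hm
      obtain ⟨hTB, hTs⟩ := Finset.mem_powersetCard.1 hT
      refine hex ⟨T.erase k, (Finset.erase_subset _ _).trans hTB, ?_, hm⟩
      rw [Finset.card_erase_of_mem hk]
      omega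

theorem phi_high (s : ℕ) (B : Finset (Fin n)) (a t : Fin n → K) (q f : MvPolynomial (Fin n) K)
    (D : ℕ) (hf : f.IsHomogeneous D) (hD : s < D) : phi s B a t (q * f) = 0 := by
  rw [phi_apply]
  refine Finset.sum_eq_zero fun T hT => ?_
  rw [MvPolynomial.coeff_mul]
  rw [Finset.sum_eq_zero, mul_zero]
  rintro ⟨u, v⟩ huv
  rw [Finset.HasAntidiagonal.mem_antidiagonal] at huv
  simp only at huv ⊢
  rw [hf.coeff_eq_zero, mul_zero]
  intro hv
  have h1 : Finsupp.degree (u + v) = s := by
    rw [huv]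
    have : Finsupp.degree (ind T) = T.card := by
      unfold ind
      rw [Finsupp.degree_eq_sum]
      simp only [Finsupp.indicator_apply]
      simp
    rw [this, (Finset.mem_powersetCard.1 hT).2]
  rw [map_add] at h1
  omega

/-- A form which is a sum over singletons. -/
theorem form_lin {r : ℕ} {d : Fin r → ℕ}
    (c : (Σ i : Fin r, {T : Finset (Fin n) // T.card = d i}) → K) (i : Fin r) (hi : d i = 1) :
    form c i = ∑ k, C (c ⟨i, ⟨{k}, by rw [hi]; exact Finset.card_singleton k⟩⟩) * X k := by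
  unfold form
  refine (Finset.sum_bij (fun (k : Fin n) _ =>
    (⟨{k}, by rw [hi]; exact Finset.card_singleton k⟩ : {T : Finset (Fin n) // T.card = d i}))
    (fun _ _ => Finset.mem_univ _) ?_ ?_ ?_).symm
  · intro k _ k' _ h
    have := congrArg Subtype.val h
    exact Finset.singleton_injective this
  · rintro ⟨T, hT⟩ _
    rw [hi] at hT
    obtain ⟨k, rfl⟩ := Finset.card_eq_one.1 hT
    exact ⟨k, Finset.mem_univ _, rfl⟩
  · intro k _
    simp

theorem form_hom {r : ℕ} {d : Fin r → ℕ}
    (c : (Σ i : Fin r, {T : Finset (Fin n) // T.card = d i}) → K) (i : Fin r) :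
    (form c i).IsHomogeneous (d i) := by
  unfold form
  refine IsHomogeneous.sum _ _ _ fun T _ => ?_
  have h : (∏ k ∈ T.1, (X k : MvPolynomial (Fin n) K)).IsHomogeneous (∑ _k ∈ T.1, 1) :=
    IsHomogeneous.prod _ _ _ fun k _ => isHomogeneous_X K k
  rw [Finset.sum_const, smul_eq_mul, mul_one, T.2] at h
  simpa using (isHomogeneous_C (Fin n) (c ⟨i, T⟩)).mul h

theorem phi_ideal {r : ℕ} (f : Fin r → MvPolynomial (Fin n) K) (s : ℕ) (B : Finset (Fin n))
    (a t : Fin n → K) (hf : ∀ i q, phi s B a t (q * f i) = 0) (p : MvPolynomial (Fin n) K)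
    (hp : p ∈ Ideal.span (Set.range (fun i : Fin n => (X i : MvPolynomial (Fin n) K) ^ 2) ∪
          Set.range f)) : phi s B a t p = 0 := by
  refine Submodule.span_induction (p := fun p _ => ∀ q, phi s B a t (q * p) = 0) ?_ ?_ ?_ ?_ hp 1
    |> fun h => by simpa using h
  · rintro x (⟨i, rfl⟩ | ⟨i, rfl⟩) q
    · exact phi_sq s B a t q i
    · exact hf i q
  · intro q; simp
  · intro x y _ _ hx hy q
    rw [mul_add, map_add, hx, hy, add_zero]
  · intro b x _ hx q
    rw [smul_eq_mul, ← mul_assoc]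
    exact hx _

theorem fin_hom (j : ℕ) : Module.Finite K (homogeneousSubmodule (Fin n) K j) := by
  have h : homogeneousSubmodule (Fin n) K j ≤ restrictTotalDegree (Fin n) K j := by
    intro p hp
    rw [mem_restrictTotalDegree]
    exact IsHomogeneous.totalDegree_le hp
  exact Submodule.finiteDimensional_of_le h

theorem one_le_hilb {r : ℕ} (f : Fin r → MvPolynomial (Fin n) K) (s : ℕ) (B : Finset (Fin n))
    (a t : Fin n → K) (ha : ∀ i ∈ B, a i ≠ 0) (ht : Set.InjOn t B) (hB : s ≤ B.card)
    (hf : ∀ i q, phi s B a t (q * f i) = 0) : 1 ≤ hilb f s := by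
  obtain ⟨T, hTB, hTs⟩ := Finset.exists_subset_card_eq hB
  have hmem : (monomial (ind T) (1 : K)) ∈ homogeneousSubmodule (Fin n) K s := by
    rw [mem_homogeneousSubmodule]
    refine isHomogeneous_monomial _ ?_
    have : Finsupp.degree (ind T) = T.card := by
      unfold ind
      rw [Finsupp.degree_eq_sum]
      simp only [Finsupp.indicator_apply]
      simp
    rw [this, hTs]
  have := fin_hom (K := K) (n := n) s
  have hnt : Nontrivial (↥(homogeneousSubmodule (Fin n) K s) ⧸
    Submodule.comap (homogeneousSubmodule (Fin n) K s).subtype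
      (Submodule.restrictScalars K
        (Ideal.span (Set.range (fun i : Fin n => (X i : MvPolynomial (Fin n) K) ^ 2) ∪
          Set.range f)))) := by
    rw [Submodule.Quotient.nontrivial_iff]
    intro htop
    have h1 : (⟨_, hmem⟩ : ↥(homogeneousSubmodule (Fin n) K s)) ∈
      Submodule.comap (homogeneousSubmodule (Fin n) K s).subtype
      (Submodule.restrictScalars K
        (Ideal.span (Set.range (fun i : Fin n => (X i : MvPolynomial (Fin n) K) ^ 2) ∪
          Set.range f))) := by
      rw [htop]; exact Submodule.mem_top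
    have h2 := phi_ideal f s B a t hf _ h1
    rw [phi_apply, Finset.sum_eq_single T] at h2
    · have h3 : cf B a t T ≠ 0 := by
        unfold cf
        refine mul_ne_zero (Finset.prod_ne_zero_iff.2 fun i hi => inv_ne_zero (ha i (hTB hi)))
          (Finset.prod_ne_zero_iff.2 fun i hi => Finset.prod_ne_zero_iff.2 fun l hl =>
            inv_ne_zero ?_)
        intro h
        obtain ⟨hlB, hlT⟩ := Finset.mem_sdiff.1 hl
        have : i = l := ht (hTB hi) hlB (sub_eq_zero.1 h)
        exact hlT (this ▸ hi)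
      simp [h3] at h2
    · intro U _ hU
      have : (coeff (ind U)) (((homogeneousSubmodule (Fin n) K s).subtype)
          (⟨_, hmem⟩ : ↥(homogeneousSubmodule (Fin n) K s))) = 0 := by
        simp only [Submodule.subtype_apply]
        rw [coeff_monomial, if_neg]
        intro h
        exact hU (ind_inj h).symm
      rw [this, mul_zero]
    · intro h
      exact absurd (Finset.mem_powersetCard.2 ⟨hTB, hTs⟩) h
  unfold hilb
  exact Nat.one_le_iff_ne_zero.2 (Module.finrank_pos).ne'

end Core

section Num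

theorem coeff_prod (s : ℕ) {r : ℕ} (d : Fin r → ℕ) (S : Finset (Fin r)) (hS : ∀ i ∈ S, s < d i)
    (p : Polynomial ℤ) (j : ℕ) (hj : j ≤ s) :
    (p * ∏ i ∈ S, (1 - Polynomial.X ^ d i)).coeff j = p.coeff j := by
  induction S using Finset.induction_on generalizing p with
  | empty => simp
  | insert i S hi ih =>
    rw [Finset.prod_insert hi, ← mul_assoc, ih (fun i hi' => hS i (Finset.mem_insert_of_mem hi'))]
    rw [mul_sub, mul_one, Polynomial.coeff_sub, Polynomial.coeff_mul_X_pow', if_neg, sub_zero]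
    have := hS i (Finset.mem_insert_self i S)
    omega

theorem choose_ineq (n s : ℕ) (hs : 2 ≤ s)
    (h : (3 ≤ s ∧ n = 2 * s + 1) ∨ (6 ≤ s ∧ n = 2 * s + 2)) :
    (n.choose s : ℤ) - 2 * n.choose (s - 1) + n.choose (s - 2) ≤ 0 := by
  obtain ⟨u, rfl⟩ : ∃ u, s = u + 2 := ⟨s - 2, by omega⟩
  have e1 : u + 2 - 1 = u + 1 := rfl
  have e2 : u + 2 - 2 = u := rfl
  rw [e1, e2]
  have h1 := Nat.choose_succ_right_eq n u
  have h2 := Nat.choose_succ_right_eq n (u + 1)
  rcases h with ⟨h3, rfl⟩ | ⟨h3, rfl⟩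
  · have e3 : 2 * (u + 2) + 1 - u = u + 5 := by omega
    have e4 : 2 * (u + 2) + 1 - (u + 1) = u + 4 := by omega
    rw [e3] at h1
    rw [e4] at h2
    zify at h1 h2
    set x : ℤ := ((2 * (u + 2) + 1).choose u : ℤ)
    set y : ℤ := ((2 * (u + 2) + 1).choose (u + 1) : ℤ)
    set z : ℤ := ((2 * (u + 2) + 1).choose (u + 1 + 1) : ℤ)
    have hy : 0 ≤ y := by positivity
    have hu : (1 : ℤ) ≤ u := by omega
    have key : ((u : ℤ) + 2) * (u + 5) * (z - 2 * y + x) ≤ 0 := by
      have : ((u : ℤ) + 2) * (u + 5) * (z - 2 * y + x) =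
          (u + 5) * (z * (u + 1 + 1)) + (u + 2) * (x * (u + 5)) - 2 * (u + 2) * (u + 5) * y := by
        ring
      rw [this, h2, ← h1]
      nlinarith
    by_contra hc
    push Not at hc
    have : 0 < ((u : ℤ) + 2) * (u + 5) * (z - 2 * y + x) := by positivity
    omega
  · have e3 : 2 * (u + 2) + 2 - u = u + 6 := by omega
    have e4 : 2 * (u + 2) + 2 - (u + 1) = u + 5 := by omega
    rw [e3] at h1
    rw [e4] at h2
    zify at h1 h2
    set x : ℤ := ((2 * (u + 2) + 2).choose u : ℤ)
    set y : ℤ := ((2 * (u + 2) + 2).choose (u + 1) : ℤ)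
    set z : ℤ := ((2 * (u + 2) + 2).choose (u + 1 + 1) : ℤ)
    have hy : 0 ≤ y := by positivity
    have hu : (4 : ℤ) ≤ u := by omega
    have key : ((u : ℤ) + 2) * (u + 6) * (z - 2 * y + x) ≤ 0 := by
      have : ((u : ℤ) + 2) * (u + 6) * (z - 2 * y + x) =
          (u + 6) * (z * (u + 1 + 1)) + (u + 2) * (x * (u + 6)) - 2 * (u + 2) * (u + 6) * y := by
        ring
      rw [this, h2, ← h1]
      nlinarith
    by_contra hc
    push Not at hc
    have : 0 < ((u : ℤ) + 2) * (u + 6) * (z - 2 * y + x) := by positivity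
    omega

theorem expected_zero (n s : ℕ) {r : ℕ} (d : Fin r → ℕ) (i₀ i₁ : Fin r) (hne : i₀ ≠ i₁)
    (h0 : d i₀ = 1) (h1 : d i₁ = 1) (hd : ∀ i, i ≠ i₀ → i ≠ i₁ → s < d i)
    (h : (3 ≤ s ∧ n = 2 * s + 1) ∨ (6 ≤ s ∧ n = 2 * s + 2)) : expected n d s = 0 := by
  unfold expected
  rw [if_neg]
  intro hall
  have h2 := hall s le_rfl
  have h3 : (series n d).coeff s =
      (n.choose s : ℤ) - 2 * n.choose (s - 1) + n.choose (s - 2) := by
    unfold series
    rw [← Finset.mul_prod_erase Finset.univ _ (Finset.mem_univ i₀),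
      ← Finset.mul_prod_erase (Finset.univ.erase i₀) _
        (Finset.mem_erase.2 ⟨Ne.symm hne, Finset.mem_univ i₁⟩), ← mul_assoc, ← mul_assoc,
      coeff_prod s d _ _ _ s le_rfl, h0, h1]
    · have e : (1 + Polynomial.X : Polynomial ℤ) ^ n * (1 - Polynomial.X ^ 1) *
          (1 - Polynomial.X ^ 1) = (1 + Polynomial.X) ^ n -
            2 * ((1 + Polynomial.X) ^ n * Polynomial.X ^ 1) +
            (1 + Polynomial.X) ^ n * Polynomial.X ^ 2 := by ring
      rw [e, Polynomial.coeff_add, Polynomial.coeff_sub, Polynomial.coeff_ofNat_mul,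
        Polynomial.coeff_mul_X_pow', Polynomial.coeff_mul_X_pow', if_pos (by omega),
        if_pos (by omega)]
      simp only [Polynomial.coeff_one_add_X_pow]
    · intro i hi
      rw [Finset.mem_erase, Finset.mem_erase] at hi
      exact hd i hi.2.1 hi.1
  rw [h3] at h2
  have := choose_ineq n s (by omega) h
  omega

end Num

theorem main {K : Type} [Field K] [Infinite K] (n s : ℕ) {r : ℕ} (d : Fin r → ℕ)
    (i₀ i₁ : Fin r) (hne : i₀ ≠ i₁) (h0 : d i₀ = 1) (h1 : d i₁ = 1)
    (hd : ∀ i, i ≠ i₀ → i ≠ i₁ → s < d i) (hs : 1 ≤ s) (hn : 2 * s + 1 ≤ n)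
    (P : MvPolynomial (Σ i : Fin r, {T : Finset (Fin n) // T.card = d i}) K) (hP : P ≠ 0) :
    ∃ c : (Σ i : Fin r, {T : Finset (Fin n) // T.card = d i}) → K, eval c P ≠ 0 ∧
      1 ≤ hilb (form c) s := by
  classical
  obtain ⟨B, hBu, hB⟩ := Finset.exists_subset_card_eq
    (show 2 * s + 1 ≤ (Finset.univ : Finset (Fin n)).card by simpa using hn)
  let v : Fin n → (Σ i : Fin r, {T : Finset (Fin n) // T.card = d i}) := fun k =>
    ⟨i₀, ⟨{k}, by rw [h0]; exact Finset.card_singleton k⟩⟩
  let w : Fin n → (Σ i : Fin r, {T : Finset (Fin n) // T.card = d i}) := fun k =>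
    ⟨i₁, ⟨{k}, by rw [h1]; exact Finset.card_singleton k⟩⟩
  have hvw : ∀ k l, v k ≠ w l := by
    intro k l h
    exact hne (congrArg Sigma.fst h)
  have hv : ∀ k l, v k = v l → k = l := by
    intro k l h
    have := eq_of_heq (Sigma.mk.inj h).2
    exact Finset.singleton_injective (congrArg Subtype.val this)
  have hw : ∀ k l, w k = w l → k = l := by
    intro k l h
    have := eq_of_heq (Sigma.mk.inj h).2
    exact Finset.singleton_injective (congrArg Subtype.val this)
  set Q : MvPolynomial (Σ i : Fin r, {T : Finset (Fin n) // T.card = d i}) K :=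
    P * (∏ k : Fin n, X (v k)) *
      ∏ x ∈ (Finset.univ : Finset (Fin n × Fin n)).filter (fun x => x.1 ≠ x.2),
        (X (v x.1) * X (w x.2) - X (v x.2) * X (w x.1)) with hQ
  have hQ0 : Q ≠ 0 := by
    rw [hQ]
    refine mul_ne_zero (mul_ne_zero hP (Finset.prod_ne_zero_iff.2 fun k _ => X_ne_zero _))
      (Finset.prod_ne_zero_iff.2 fun x hx => ?_)
    intro h
    have hx' := (Finset.mem_filter.1 hx).2
    have h2 := congrArg (eval (fun z => if z = v x.1 ∨ z = w x.2 then (1 : K) else 0)) h
    have h4 : ¬ (v x.2 = v x.1 ∨ v x.2 = w x.2) := by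
      rintro (h3 | h3)
      · exact hx' (hv _ _ h3).symm
      · exact hvw _ _ h3
    simp [h4] at h2
  obtain ⟨c, hc⟩ : ∃ c, eval c Q ≠ 0 := by
    by_contra hcon
    push Not at hcon
    exact hQ0 (MvPolynomial.funext fun c => by rw [hcon c, map_zero])
  rw [hQ, map_mul, map_mul, map_prod, map_prod] at hc
  obtain ⟨hc1, hc2⟩ := mul_ne_zero_iff.1 hc
  obtain ⟨hc3, hc4⟩ := mul_ne_zero_iff.1 hc1
  refine ⟨c, hc3, ?_⟩
  have ha : ∀ k : Fin n, c (v k) ≠ 0 := by
    intro k
    have := Finset.prod_ne_zero_iff.1 hc4 k (Finset.mem_univ k)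
    simpa using this
  have ht : Function.Injective (fun k : Fin n => c (w k) / c (v k)) := by
    intro k l hkl
    by_contra hne'
    have h3 := Finset.prod_ne_zero_iff.1 hc2 (k, l)
      (Finset.mem_filter.2 ⟨Finset.mem_univ _, hne'⟩)
    simp only [map_sub, map_mul, eval_X] at h3
    apply h3
    simp only at hkl
    rw [div_eq_div_iff (ha k) (ha l)] at hkl
    linear_combination -hkl
  refine one_le_hilb (form c) s B (fun k => c (v k)) (fun k => c (w k) / c (v k))
    (fun k _ => ha k) ht.injOn (by omega) ?_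
  intro i q
  by_cases hi0 : i = i₀
  · subst hi0
    rw [form_lin c i h0]
    exact phi_lin s B _ _ (fun k _ => ha k) ht.injOn hB hs 0 (by omega) _
      (fun k _ => by simp [v]) q
  by_cases hi1 : i = i₁
  · subst hi1
    rw [form_lin c i h1]
    exact phi_lin s B _ _ (fun k _ => ha k) ht.injOn hB hs 1 le_rfl _
      (fun k _ => by
        have := ha k
        simp only [pow_one]
        field_simp
        rfl) q
  exact phi_high s B _ _ q (form c i) (d i) (form_hom c i) (hd i hi0 hi1)

/-- The conjectured formula is false for every infinite field `K`, every number `r ≥ 2` of forms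
and every `n` which is odd and at least `7`, or at least `14`: it fails for two linear forms
together with `r - 2` further forms of degrees at least `n / 2`. -/
theorem result (K : Type) [Field K] [Infinite K] (n : ℕ) (hn : 7 ≤ n) (hn2 : Odd n ∨ 14 ≤ n)
    {r : ℕ} (d : Fin r → ℕ) (i₀ i₁ : Fin r) (hne : i₀ ≠ i₁) (h0 : d i₀ = 1) (h1 : d i₁ = 1)
    (hd : ∀ i, i ≠ i₀ → i ≠ i₁ → n ≤ 2 * d i) : ¬ SeriesFormula K n d := by
  rintro ⟨P, hP, hP2⟩
  obtain ⟨s, hs⟩ : ∃ s, (3 ≤ s ∧ n = 2 * s + 1) ∨ (6 ≤ s ∧ n = 2 * s + 2) := by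
    rcases Nat.even_or_odd' n with ⟨u, hu | hu⟩
    · rcases hn2 with h | h
      · exact absurd h (by rw [hu]; simp)
      · exact ⟨u - 1, Or.inr ⟨by omega, by omega⟩⟩
    · exact ⟨u, Or.inl ⟨by omega, hu⟩⟩
  have hd' : ∀ i, i ≠ i₀ → i ≠ i₁ → s < d i := fun i hi hi' => by
    have := hd i hi hi'
    omega
  obtain ⟨c, hc, hc2⟩ := main n s d i₀ i₁ hne h0 h1 hd' (by omega) (by omega) P hP
  have h3 := hP2 c hc s
  rw [expected_zero n s d i₀ i₁ hne h0 h1 hd' hs] at h3
  omega

end Pool.Agent.Results.MP_3acc10_al.TwoLinearForms
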